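import Mathlib

/-!
# Cyclic Steiner triple systems from third-point functions
-/

set_option autoImplicit false

namespace Pool.Agent.Y347.CSTS

/-- A third-point function on an additive group: the block through `0` and `d` is
`{0, d, T d}`. -/
structure IsThird {G : Type*} [AddCommGroup G] (T : G → G) : Prop where
  ne_zero : ∀ d, d ≠ 0 → T d ≠ 0
  ne_self : ∀ d, d ≠ 0 → T d ≠ d
  invol : ∀ d, d ≠ 0 → T (T d) = d
  neg : ∀ d, d ≠ 0 → T (-d) = T d - d

section

variable {G : Type*} [AddCommGroup G] [Fintype G] [DecidableEq G]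

/-- the blocks `{x, x + d, x + T d}` -/
def blocks (T : G → G) : Finset (Finset G) :=
  (Finset.univ.filter (fun p : G × G => p.2 ≠ 0)).image
    (fun p => {p.1, p.1 + p.2, p.1 + T p.2})

theorem mem_blocks {T : G → G} {b : Finset G} :
    b ∈ blocks T ↔ ∃ x d : G, d ≠ 0 ∧ b = {x, x + d, x + T d} := by
  unfold blocks
  rw [Finset.mem_image]
  constructor
  · rintro ⟨p, hp, rfl⟩
    exact ⟨p.1, p.2, (Finset.mem_filter.1 hp).2, rfl⟩
  · rintro ⟨x, d, hd, rfl⟩
    exact ⟨(x, d), by simp [hd], rfl⟩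

theorem card_block {T : G → G} (hT : IsThird T) {b : Finset G} (hb : b ∈ blocks T) :
    b.card = 3 := by
  obtain ⟨x, d, hd, rfl⟩ := mem_blocks.1 hb
  rw [Finset.card_eq_three]
  refine ⟨x, x + d, x + T d, ?_, ?_, ?_, rfl⟩
  · simpa using hd
  · simpa using hT.ne_zero d hd
  · intro h
    exact hT.ne_self d hd (add_left_cancel h).symm

theorem third_eq {T : G → G} (hT : IsThird T) {b : Finset G} (hb : b ∈ blocks T) {x y : G}
    (hx : x ∈ b) (hy : y ∈ b) (hxy : x ≠ y) : b = {x, y, x + T (y - x)} := by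
  obtain ⟨z, d, hd, rfl⟩ := mem_blocks.1 hb
  simp only [Finset.mem_insert, Finset.mem_singleton] at hx hy
  have hT0 := hT.ne_zero d hd
  have h1 := hT.invol d hd
  have h2 := hT.neg d hd
  have hnd : -d ≠ 0 := neg_ne_zero.2 hd
  have h3 := hT.neg (T d) hT0
  rw [h1] at h3
  have h4 := hT.invol (-d) hnd
  rw [h2] at h4
  have h5 : d - T d ≠ 0 := by
    intro h
    exact hT.ne_self d hd (sub_eq_zero.1 h).symm
  have h6 := hT.invol (- (T d)) (neg_ne_zero.2 hT0)
  rw [h3] at h6
  rcases hx with rfl | rfl | rfl <;> rcases hy with rfl | rfl | rfl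
  · exact absurd rfl hxy
  · rw [add_sub_cancel_left]
  · rw [add_sub_cancel_left, h1]
    ext w; simp only [Finset.mem_insert, Finset.mem_singleton]; tauto
  · have e : y - (y + d) = -d := by abel
    rw [e, h2]
    have e2 : y + d + (T d - d) = y + T d := by abel
    rw [e2]
    ext w; simp only [Finset.mem_insert, Finset.mem_singleton]; tauto
  · exact absurd rfl hxy
  · have e : z + T d - (z + d) = T d - d := by abel
    rw [e, h4]
    have e2 : z + d + -d = z := by abel
    rw [e2]
    ext w; simp only [Finset.mem_insert, Finset.mem_singleton]; tauto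
  · have e : y - (y + T d) = -(T d) := by abel
    rw [e, h3]
    have e2 : y + T d + (d - T d) = y + d := by abel
    rw [e2]
    ext w; simp only [Finset.mem_insert, Finset.mem_singleton]; tauto
  · have e : z + d - (z + T d) = d - T d := by abel
    rw [e, h6]
    have e2 : z + T d + -(T d) = z := by abel
    rw [e2]
    ext w; simp only [Finset.mem_insert, Finset.mem_singleton]; tauto
  · exact absurd rfl hxy

theorem exists_unique_block {T : G → G} (hT : IsThird T) (x y : G) (hxy : x ≠ y) :
    ∃! b : Finset G, b ∈ blocks T ∧ x ∈ b ∧ y ∈ b := by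
  refine ⟨{x, y, x + T (y - x)}, ⟨?_, ?_, ?_⟩, ?_⟩
  · rw [mem_blocks]
    refine ⟨x, y - x, sub_ne_zero.2 hxy.symm, ?_⟩
    rw [add_sub_cancel]
  · simp
  · simp
  · rintro b ⟨hb, hx, hy⟩
    exact third_eq hT hb hx hy hxy

theorem shift_mem {T : G → G} {b : Finset G} (hb : b ∈ blocks T) (g : G) :
    b.image (fun x => x + g) ∈ blocks T := by
  obtain ⟨x, d, hd, rfl⟩ := mem_blocks.1 hb
  rw [mem_blocks]
  refine ⟨x + g, d, hd, ?_⟩
  simp only [Finset.image_insert, Finset.image_singleton]
  rw [add_right_comm x d g, add_right_comm x (T d) g]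

theorem blocks_inj {T T' : G → G} (hT : IsThird T) (hT' : IsThird T') (h : blocks T = blocks T')
    (d : G) (hd : d ≠ 0) : T d = T' d := by
  have h1 : ({0, 0 + d, 0 + T d} : Finset G) ∈ blocks T := mem_blocks.2 ⟨0, d, hd, rfl⟩
  rw [h] at h1
  have h2 := third_eq hT' h1 (x := 0) (y := d) (by simp) (by simp) hd.symm
  have h3 : T d ∈ ({0, 0 + d, 0 + T d} : Finset G) := by simp
  rw [h2] at h3
  simp only [sub_zero, zero_add, Finset.mem_insert, Finset.mem_singleton] at h3
  rcases h3 with h3 | h3 | h3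
  · exact absurd h3 (hT.ne_zero d hd)
  · exact absurd h3 (hT.ne_self d hd)
  · exact h3

end

end Pool.Agent.Y347.CSTS
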