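import Mathlib

/-!
# At most `n` shift invariant set systems on `ZMod n` are isomorphic to a given one
-/

set_option autoImplicit false

open scoped Pointwise

namespace Pool.Agent.Y347.CSTS

variable {n : ℕ} [NeZero n]

/-- the shift `x ↦ x + 1` -/
def shift (n : ℕ) : Equiv.Perm (ZMod n) := Equiv.addRight 1

theorem commute_shift {ρ : Equiv.Perm (ZMod n)} (h : ρ * shift n = shift n * ρ) (x : ZMod n) :
    ρ x = x + ρ 0 := by
  have h1 : ∀ x, ρ (x + 1) = ρ x + 1 := fun x => by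
    have := congrArg (fun f : Equiv.Perm (ZMod n) => f x) h
    simpa [shift] using this
  have h2 : ∀ k : ℕ, ρ (k : ZMod n) = (k : ZMod n) + ρ 0 := by
    intro k
    induction k with
    | zero => simp
    | succ k ih => push_cast; rw [h1, ih]; ring
  have := h2 x.val
  rwa [ZMod.natCast_zmod_val] at this

/-- At most `n` shift invariant families are images of a given family `B`. -/
theorem class_bound (B : Finset (Finset (ZMod n))) (F : Finset (Finset (Finset (ZMod n))))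
    (hs : ∀ B' ∈ F, shift n • B' = B') (hF : ∀ B' ∈ F, ∃ σ : Equiv.Perm (ZMod n), σ • B = B') :
    F.card ≤ n := by
  classical
  choose! sg hsg using hF
  let A : Finset (Equiv.Perm (ZMod n)) := Finset.univ.filter (fun σ => σ • B = B)
  have hA1 : (1 : Equiv.Perm (ZMod n)) ∈ A := by simp [A]
  -- choice of representatives
  let rep : Equiv.Perm (ZMod n) → Equiv.Perm (ZMod n) := fun τ =>
    if h : ∃ ρ : Equiv.Perm (ZMod n), ρ⁻¹ * shift n * ρ = τ then h.choose else 1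
  have hrep : ∀ σ : Equiv.Perm (ZMod n),
      (rep (σ⁻¹ * shift n * σ))⁻¹ * shift n * rep (σ⁻¹ * shift n * σ) = σ⁻¹ * shift n * σ := by
    intro σ
    have h : ∃ ρ : Equiv.Perm (ZMod n), ρ⁻¹ * shift n * ρ = σ⁻¹ * shift n * σ := ⟨σ, rfl⟩
    have e : rep (σ⁻¹ * shift n * σ) = h.choose := by
      simp only [rep]
      rw [dif_pos h]
    rw [e]
    exact h.choose_spec
  let Ψ : Equiv.Perm (ZMod n) → Equiv.Perm (ZMod n) × ZMod n := fun σ =>
    (σ⁻¹ * shift n * σ, (σ * (rep (σ⁻¹ * shift n * σ))⁻¹) 0)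
  have hΨ : Function.Injective Ψ := by
    intro σ₁ σ₂ h
    have h1 : σ₁⁻¹ * shift n * σ₁ = σ₂⁻¹ * shift n * σ₂ := congrArg Prod.fst h
    have h2 : (σ₁ * (rep (σ₁⁻¹ * shift n * σ₁))⁻¹) 0 = (σ₂ * (rep (σ₂⁻¹ * shift n * σ₂))⁻¹) 0 :=
      congrArg Prod.snd h
    have hr1 := hrep σ₁
    have hr2 := hrep σ₂
    rw [← h1] at h2 hr2
    set ρ := rep (σ₁⁻¹ * shift n * σ₁) with hρ
    have c1 : (σ₁ * ρ⁻¹) * shift n = shift n * (σ₁ * ρ⁻¹) := by
      have : ρ⁻¹ * shift n * ρ = σ₁⁻¹ * shift n * σ₁ := hr1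
      have h3 : σ₁ * (ρ⁻¹ * shift n * ρ) * ρ⁻¹ = σ₁ * (σ₁⁻¹ * shift n * σ₁) * ρ⁻¹ := by rw [this]
      have e1 : σ₁ * (ρ⁻¹ * shift n * ρ) * ρ⁻¹ = σ₁ * ρ⁻¹ * shift n := by group
      have e2 : σ₁ * (σ₁⁻¹ * shift n * σ₁) * ρ⁻¹ = shift n * (σ₁ * ρ⁻¹) := by group
      rw [← e1, ← e2, h3]
    have c2 : (σ₂ * ρ⁻¹) * shift n = shift n * (σ₂ * ρ⁻¹) := by
      have : ρ⁻¹ * shift n * ρ = σ₂⁻¹ * shift n * σ₂ := by rw [← h1]; exact hr1
      have h3 : σ₂ * (ρ⁻¹ * shift n * ρ) * ρ⁻¹ = σ₂ * (σ₂⁻¹ * shift n * σ₂) * ρ⁻¹ := by rw [this]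
      have e1 : σ₂ * (ρ⁻¹ * shift n * ρ) * ρ⁻¹ = σ₂ * ρ⁻¹ * shift n := by group
      have e2 : σ₂ * (σ₂⁻¹ * shift n * σ₂) * ρ⁻¹ = shift n * (σ₂ * ρ⁻¹) := by group
      rw [← e1, ← e2, h3]
    have e : σ₁ * ρ⁻¹ = σ₂ * ρ⁻¹ := by
      ext x
      rw [commute_shift c1 x, commute_shift c2 x, h2]
    exact mul_right_cancel e
  let Φ : Finset (Finset (ZMod n)) × Equiv.Perm (ZMod n) → Equiv.Perm (ZMod n) × ZMod n :=
    fun p => Ψ (sg p.1 * p.2)
  have hcard : (F ×ˢ A).card ≤ (A ×ˢ (Finset.univ : Finset (ZMod n))).card := by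
    apply Finset.card_le_card_of_injOn Φ
    · rintro ⟨B', a⟩ hp
      rw [Finset.mem_coe, Finset.mem_product] at hp
      rw [Finset.mem_coe, Finset.mem_product]
      refine ⟨?_, Finset.mem_univ _⟩
      have ha : a • B = B := by simpa [A] using hp.2
      have hB' : (sg B' * a) • B = B' := by rw [mul_smul, ha]; exact hsg B' hp.1
      have hs' := hs B' hp.1
      change ((sg B' * a)⁻¹ * shift n * (sg B' * a)) ∈ A
      simp only [A, Finset.mem_filter, Finset.mem_univ, true_and]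
      rw [mul_smul, mul_smul, hB', hs', inv_smul_eq_iff, hB']
    · rintro ⟨B₁, a₁⟩ hp₁ ⟨B₂, a₂⟩ hp₂ h
      rw [Finset.mem_coe, Finset.mem_product] at hp₁ hp₂
      have ha₁ : a₁ • B = B := by simpa [A] using hp₁.2
      have ha₂ : a₂ • B = B := by simpa [A] using hp₂.2
      have h1 : sg B₁ * a₁ = sg B₂ * a₂ := hΨ h
      have hB₁ : (sg B₁ * a₁) • B = B₁ := by rw [mul_smul, ha₁]; exact hsg B₁ hp₁.1
      have hB₂ : (sg B₂ * a₂) • B = B₂ := by rw [mul_smul, ha₂]; exact hsg B₂ hp₂.1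
      have h2 : B₁ = B₂ := by rw [← hB₁, ← hB₂, h1]
      subst h2
      have h3 : a₁ = a₂ := mul_left_cancel h1
      rw [h3]
  rw [Finset.card_product, Finset.card_product, Finset.card_univ, ZMod.card, mul_comm] at hcard
  exact Nat.le_of_mul_le_mul_left hcard (Finset.card_pos.2 ⟨1, hA1⟩)

/-- Many shift invariant families contain many pairwise non-isomorphic ones. -/
theorem exists_noniso (Ω : Finset (Finset (Finset (ZMod n)))) (hs : ∀ B ∈ Ω, shift n • B = B)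
    (M : ℕ) (hM : M * n < Ω.card) :
    ∃ S ⊆ Ω, S.card = M + 1 ∧ ∀ B ∈ S, ∀ B' ∈ S, (∃ σ : Equiv.Perm (ZMod n), σ • B = B') →
      B = B' := by
  classical
  induction M with
  | zero =>
    obtain ⟨B, hB⟩ := Finset.card_pos.1 (by simpa using hM : 0 < Ω.card)
    refine ⟨{B}, by simpa using hB, by simp, ?_⟩
    intro B₁ h₁ B₂ h₂ _
    rw [Finset.mem_singleton] at h₁ h₂
    rw [h₁, h₂]
  | succ M ih =>
    obtain ⟨S, hSΩ, hSc, hS⟩ := ih (by
      have : M * n ≤ (M + 1) * n := Nat.mul_le_mul_right _ (Nat.le_succ M)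
      omega)
    let bad : Finset (Finset (ZMod n)) → Finset (Finset (Finset (ZMod n))) := fun B =>
      Ω.filter (fun B' => ∃ σ : Equiv.Perm (ZMod n), σ • B = B')
    have hbad : (S.biUnion bad).card ≤ (M + 1) * n := by
      rw [← hSc]
      apply Finset.card_biUnion_le_card_mul
      intro B _
      apply class_bound B
      · intro B' hB'
        exact hs B' (Finset.mem_filter.1 hB').1
      · intro B' hB'
        exact (Finset.mem_filter.1 hB').2
    obtain ⟨C, hC, hCn⟩ : ∃ C ∈ Ω, C ∉ S.biUnion bad := by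
      by_contra hcon
      push Not at hcon
      have := Finset.card_le_card (show Ω ⊆ S.biUnion bad from hcon)
      omega
    have hCn' : ∀ B ∈ S, ∀ σ : Equiv.Perm (ZMod n), σ • B ≠ C := by
      intro B hB σ h
      exact hCn (Finset.mem_biUnion.2 ⟨B, hB, Finset.mem_filter.2 ⟨hC, σ, h⟩⟩)
    have hCS : C ∉ S := fun h => hCn' C h 1 (one_smul _ _)
    refine ⟨insert C S, ?_, ?_, ?_⟩
    · intro B hB
      rcases Finset.mem_insert.1 hB with rfl | hB
      · exact hC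
      · exact hSΩ hB
    · rw [Finset.card_insert_of_notMem hCS, hSc]
    · intro B₁ h₁ B₂ h₂ h
      rcases Finset.mem_insert.1 h₁ with e₁ | h₁ <;> rcases Finset.mem_insert.1 h₂ with e₂ | h₂
      · rw [e₁, e₂]
      · obtain ⟨σ, hσ⟩ := h
        exfalso
        apply hCn' B₂ h₂ σ⁻¹
        rw [inv_smul_eq_iff, ← hσ, e₁]
      · obtain ⟨σ, hσ⟩ := h
        exfalso
        apply hCn' B₁ h₁ σ
        rw [hσ, e₂]
      · exact hS B₁ h₁ B₂ h₂ h

end Pool.Agent.Y347.CSTS
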