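import Mathlib
import Pool.Agent.Y347.CSTS.Basic
import Pool.Agent.Y347.CSTS.Iso

/-!
# Third-point functions from difference triples, with arbitrary flips
-/

set_option autoImplicit false

open scoped Pointwise

namespace Pool.Agent.Y347.CSTS

/-- the three differences of the `i`-th triple -/
def val (a b : ℕ → ℕ) (i : ℕ) : Fin 3 → ℕ := ![a i, b i, a i + b i]

/-- difference triples `(a i, b i, a i + b i)`, `i < k`, modulo `n` -/
structure IsDT (n k : ℕ) (a b : ℕ → ℕ) : Prop where
  pos_a : ∀ i < k, 0 < a i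
  pos_b : ∀ i < k, 0 < b i
  lt : ∀ i < k, a i + b i < n
  inj : ∀ i < k, ∀ j < k, ∀ ρ ρ' : Fin 3, val a b i ρ = val a b j ρ' → i = j ∧ ρ = ρ'
  ne_neg : ∀ i < k, ∀ j < k, ∀ ρ ρ' : Fin 3, val a b i ρ + val a b j ρ' ≠ n

section

variable {n k : ℕ} {a b : ℕ → ℕ}

/-- the difference with a given index, role and sign -/
def role (n k : ℕ) (a b : ℕ → ℕ) (p : Fin k × Fin 3 × Bool) : ZMod n :=
  if p.2.2 then -(val a b p.1 p.2.1 : ZMod n) else (val a b p.1 p.2.1 : ZMod n)

theorem val_pos (h : IsDT n k a b) {i : ℕ} (hi : i < k) (ρ : Fin 3) : 0 < val a b i ρ := by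
  have h1 := h.pos_a i hi
  have h2 := h.pos_b i hi
  fin_cases ρ <;> simp [val] <;> omega

theorem val_lt (h : IsDT n k a b) {i : ℕ} (hi : i < k) (ρ : Fin 3) : val a b i ρ < n := by
  have h1 := h.pos_a i hi
  have h2 := h.pos_b i hi
  have h3 := h.lt i hi
  fin_cases ρ <;> simp [val] <;> omega

theorem role_inj (h : IsDT n k a b) : Function.Injective (role n k a b) := by
  rintro ⟨i, ρ, s⟩ ⟨j, ρ', s'⟩ hij
  have hl := val_lt h i.isLt ρ
  have hl' := val_lt h j.isLt ρ'
  have hp := val_pos h i.isLt ρ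
  have hp' := val_pos h j.isLt ρ'
  have key : ∀ x y : ℕ, x < n → y < n → (x : ZMod n) = (y : ZMod n) → x = y := by
    intro x y hx hy hxy
    rw [ZMod.natCast_eq_natCast_iff'] at hxy
    rwa [Nat.mod_eq_of_lt hx, Nat.mod_eq_of_lt hy] at hxy
  have key2 : ∀ x y : ℕ, 0 < x → x < n → y < n → (x : ZMod n) = -(y : ZMod n) → x + y = n := by
    intro x y hx0 hx hy hxy
    have h1 : ((x + y : ℕ) : ZMod n) = 0 := by
      push_cast
      rw [hxy]
      simp
    rw [ZMod.natCast_eq_zero_iff] at h1
    obtain ⟨c, hc⟩ := h1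
    have : c = 1 := by
      have h2 : c < 2 := by
        by_contra h2
        push Not at h2
        have : n * 2 ≤ n * c := Nat.mul_le_mul_left n h2
        omega
      have h3 : c ≠ 0 := by
        rintro rfl
        omega
      omega
    rw [this] at hc
    omega
  cases s <;> cases s' <;> simp only [role, if_true, Bool.false_eq_true, if_false] at hij
  · obtain ⟨h1, h2⟩ := h.inj i i.isLt j j.isLt ρ ρ' (key _ _ hl hl' hij)
    rw [Fin.ext h1, h2]
  · exact absurd (key2 _ _ hp hl hl' hij) (h.ne_neg i i.isLt j j.isLt ρ ρ')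
  · exact absurd (key2 _ _ hp' hl' hl hij.symm) (h.ne_neg j j.isLt i i.isLt ρ' ρ)
  · obtain ⟨h1, h2⟩ := h.inj i i.isLt j j.isLt ρ ρ' (key _ _ hl hl' (neg_injective hij))
    rw [Fin.ext h1, h2]

/-- the third point of the pair `{0, d}` in terms of roles: the base block is `{0, a, a + b}`
(no flip) or `{0, b, a + b}` (flip) -/
def third : Bool → Fin 3 × Bool → Fin 3 × Bool
  | false, (0, false) => (2, false)
  | false, (2, false) => (0, false)
  | false, (1, false) => (0, true)
  | false, (0, true) => (1, false)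
  | false, (1, true) => (2, true)
  | false, (2, true) => (1, true)
  | true, (1, false) => (2, false)
  | true, (2, false) => (1, false)
  | true, (0, false) => (1, true)
  | true, (1, true) => (0, false)
  | true, (0, true) => (2, true)
  | true, (2, true) => (0, true)

/-- the third-point function with flips `ε` -/
noncomputable def T (n k : ℕ) (a b : ℕ → ℕ) (ε : Fin k → Bool) : ZMod n → ZMod n :=
  Function.extend (role n k a b) (fun p => role n k a b (p.1, third (ε p.1) p.2)) (fun d => -d)

theorem T_role (h : IsDT n k a b) (ε : Fin k → Bool) (p : Fin k × Fin 3 × Bool) :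
    T n k a b ε (role n k a b p) = role n k a b (p.1, third (ε p.1) p.2) :=
  (role_inj h).extend_apply _ _ p

theorem T_other (ε : Fin k → Bool) (d : ZMod n) (hd : ¬ ∃ p, role n k a b p = d) :
    T n k a b ε d = -d :=
  Function.extend_apply' _ _ d hd

theorem role_neg (p : Fin k × Fin 3 × Bool) :
    -(role n k a b p) = role n k a b (p.1, p.2.1, !p.2.2) := by
  obtain ⟨i, ρ, s⟩ := p
  cases s <;> simp [role]

theorem third_invol (e : Bool) (q : Fin 3 × Bool) : third e (third e q) = q := by
  revert e q; decide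

theorem third_ne (e : Bool) (q : Fin 3 × Bool) : third e q ≠ q := by
  revert e q; decide

theorem role_third_neg (i : Fin k) (e : Bool) (q : Fin 3 × Bool) :
    role n k a b (i, third e (q.1, !q.2)) =
      role n k a b (i, third e q) - role n k a b (i, q) := by
  obtain ⟨ρ, s⟩ := q
  cases e <;> cases s <;> fin_cases ρ <;> simp [role, third, val] <;> ring

theorem role_ne_zero (h : IsDT n k a b) (p : Fin k × Fin 3 × Bool) : role n k a b p ≠ 0 := by
  intro h0
  have h1 : role n k a b (p.1, p.2.1, !p.2.2) = role n k a b p := by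
    rw [← role_neg, h0, neg_zero]
  have h2 := role_inj h h1
  obtain ⟨i, ρ, s⟩ := p
  simp at h2

theorem isThird (h : IsDT n k a b) (h3 : ∀ d : ZMod n, d ≠ 0 → (¬ ∃ p, role n k a b p = d) →
    3 * d = 0 ∧ 2 * d ≠ 0) (ε : Fin k → Bool) : IsThird (T n k a b ε) := by
  have hneg : ∀ d : ZMod n, (¬ ∃ p, role n k a b p = d) → ¬ ∃ p, role n k a b p = -d := by
    rintro d hd ⟨p, hp⟩
    exact hd ⟨(p.1, p.2.1, !p.2.2), by rw [← role_neg, hp, neg_neg]⟩
  refine ⟨?_, ?_, ?_, ?_⟩
  · intro d hd
    by_cases hr : ∃ p, role n k a b p = d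
    · obtain ⟨p, rfl⟩ := hr
      rw [T_role h]
      exact role_ne_zero h _
    · rw [T_other ε d hr]
      exact neg_ne_zero.2 hd
  · intro d hd
    by_cases hr : ∃ p, role n k a b p = d
    · obtain ⟨p, rfl⟩ := hr
      rw [T_role h]
      intro h1
      have h2 := role_inj h h1
      obtain ⟨i, q⟩ := p
      exact third_ne _ _ (congrArg Prod.snd h2)
    · rw [T_other ε d hr]
      obtain ⟨h1, h2⟩ := h3 d hd hr
      intro h4
      apply h2
      have : 2 * d = d - -d := by ring
      rw [this, h4, sub_self]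
  · intro d hd
    by_cases hr : ∃ p, role n k a b p = d
    · obtain ⟨p, rfl⟩ := hr
      rw [T_role h, T_role h, third_invol]
    · rw [T_other ε d hr, T_other ε _ (hneg d hr), neg_neg]
  · intro d hd
    by_cases hr : ∃ p, role n k a b p = d
    · obtain ⟨p, rfl⟩ := hr
      obtain ⟨i, ρ, s⟩ := p
      rw [role_neg, T_role h, T_role h]
      exact role_third_neg i (ε i) (ρ, s)
    · rw [T_other ε d hr, T_other ε _ (hneg d hr), neg_neg]
      obtain ⟨h1, h2⟩ := h3 d hd hr
      have : d = 3 * d + (-d - d) := by ring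
      rw [h1, zero_add] at this
      exact this

theorem T_injective (h : IsDT n k a b) (ε ε' : Fin k → Bool)
    (he : ∀ d : ZMod n, d ≠ 0 → T n k a b ε d = T n k a b ε' d) : ε = ε' := by
  funext i
  have h1 := he (role n k a b (i, 0, false)) (role_ne_zero h _)
  rw [T_role h, T_role h] at h1
  have h2 := congrArg Prod.snd (role_inj h h1)
  simp only at h2
  revert h2
  cases ε i <;> cases ε' i <;> simp [third]

/-- Difference triples covering everything except elements of order three give many pairwise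
non-isomorphic cyclic systems. -/
theorem many (hn : 0 < n) (h : IsDT n k a b)
    (h3 : ∀ d : ZMod n, d ≠ 0 → (¬ ∃ p, role n k a b p = d) → 3 * d = 0 ∧ 2 * d ≠ 0)
    (M : ℕ) (hM : M * n < 2 ^ k) :
    ∃ B : Fin (M + 1) → Finset (Finset (ZMod n)),
        (∀ i, (∀ b ∈ B i, b.card = 3) ∧
          (∀ x y : ZMod n, x ≠ y → ∃! b : Finset (ZMod n), b ∈ B i ∧ x ∈ b ∧ y ∈ b) ∧
          (∀ b ∈ B i, b.image (fun x => x + 1) ∈ B i)) ∧
        (∀ i j, i ≠ j → ¬ ∃ σ : Equiv.Perm (ZMod n),
          ∀ b : Finset (ZMod n), b ∈ B i ↔ b.map σ.toEmbedding ∈ B j) := by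
  classical
  have : NeZero n := ⟨hn.ne'⟩
  let Ω : Finset (Finset (Finset (ZMod n))) :=
    Finset.univ.image (fun ε : Fin k → Bool => blocks (T n k a b ε))
  have hT := isThird h h3
  have hΩc : Ω.card = 2 ^ k := by
    rw [Finset.card_image_of_injective]
    · simp
    · intro ε ε' hε
      exact T_injective h ε ε' (blocks_inj (hT ε) (hT ε') hε)
  have hsh : ∀ B ∈ Ω, shift n • B = B := by
    intro B hB
    obtain ⟨ε, -, rfl⟩ := Finset.mem_image.1 hB
    have hsub : shift n • blocks (T n k a b ε) ⊆ blocks (T n k a b ε) := by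
      intro c hc
      obtain ⟨b', hb', rfl⟩ := Finset.mem_smul_finset.1 hc
      have := shift_mem hb' 1
      have e : shift n • b' = b'.image (fun x => x + 1) := rfl
      rw [e]
      exact this
    exact Finset.eq_of_subset_of_card_le hsub (by rw [Finset.card_smul_finset])
  obtain ⟨S, hSΩ, hSc, hS⟩ := exists_noniso Ω hsh M (by rw [hΩc]; exact hM)
  let e := S.equivFinOfCardEq hSc
  refine ⟨fun i => (e.symm i : Finset (Finset (ZMod n))), ?_, ?_⟩
  · intro i
    have hi : ((e.symm i : Finset (Finset (ZMod n)))) ∈ Ω := hSΩ (e.symm i).2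
    obtain ⟨ε, -, hε⟩ := Finset.mem_image.1 hi
    simp only
    rw [← hε]
    exact ⟨fun b hb => card_block (hT ε) hb, exists_unique_block (hT ε), fun b hb => shift_mem hb 1⟩
  · rintro i j hij ⟨σ, hσ⟩
    apply hij
    have h1 : σ • (e.symm i : Finset (Finset (ZMod n))) = (e.symm j : Finset (Finset (ZMod n))) := by
      ext c
      constructor
      · intro hc
        obtain ⟨b', hb', rfl⟩ := Finset.mem_smul_finset.1 hc
        have := (hσ b').1 hb'
        rw [Finset.map_eq_image] at this
        exact this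
      · intro hc
        rw [Finset.mem_smul_finset]
        refine ⟨σ⁻¹ • c, ?_, smul_inv_smul _ _⟩
        rw [hσ]
        rw [Finset.map_eq_image]
        have e2 : (σ⁻¹ • c).image (⇑σ.toEmbedding) = σ • (σ⁻¹ • c) := rfl
        rw [e2, smul_inv_smul]
        exact hc
    have h2 := hS _ (e.symm i).2 _ (e.symm j).2 ⟨σ, h1⟩
    have h4 : e.symm i = e.symm j := Subtype.ext h2
    exact e.symm.injective h4

end

end Pool.Agent.Y347.CSTS
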