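import Mathlib
import Pool.Agent.Y347.CSTS.Flip

/-!
# Peltesohn's difference triples
-/

set_option autoImplicit false
set_option linter.unusedSimpArgs false

namespace Pool.Agent.Y347.CSTS

theorem IsDT.mk' {n k : ℕ} {a b : ℕ → ℕ}
    (h1 : ∀ i < k, 0 < a i ∧ 0 < b i ∧ a i + b i < n)
    (h2 : ∀ i < k, ∀ j < k, (a i = a j → i = j) ∧ (b i = b j → i = j) ∧
      (a i + b i = a j + b j → i = j) ∧ a i ≠ b j ∧ a i ≠ a j + b j ∧ b i ≠ a j + b j)
    (h3 : ∀ i < k, ∀ j < k, a i + a j ≠ n ∧ a i + b j ≠ n ∧ a i + (a j + b j) ≠ n ∧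
      b i + b j ≠ n ∧ b i + (a j + b j) ≠ n ∧ (a i + b i) + (a j + b j) ≠ n) :
    IsDT n k a b := by
  refine ⟨fun i hi => (h1 i hi).1, fun i hi => (h1 i hi).2.1, fun i hi => (h1 i hi).2.2, ?_, ?_⟩
  · intro i hi j hj ρ ρ' h
    obtain ⟨f1, f2, f3, f4, f5, f6⟩ := h2 i hi j hj
    obtain ⟨g1, g2, g3, g4, g5, g6⟩ := h2 j hj i hi
    fin_cases ρ <;> fin_cases ρ' <;> simp [val] at h ⊢ <;> omega
  · intro i hi j hj ρ ρ' h
    obtain ⟨f1, f2, f3, f4, f5, f6⟩ := h3 i hi j hj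
    obtain ⟨g1, g2, g3, g4, g5, g6⟩ := h3 j hj i hi
    fin_cases ρ <;> fin_cases ρ' <;> simp [val] at h <;> omega

theorem card_role {n k : ℕ} [NeZero n] {a b : ℕ → ℕ} (h : IsDT n k a b) :
    (Finset.univ.image (role n k a b)).card = 6 * k := by
  rw [Finset.card_image_of_injective _ (role_inj h)]
  simp
  ring

theorem cover_one {k : ℕ} {a b : ℕ → ℕ} (h : IsDT (6 * k + 1) k a b)
    (d : ZMod (6 * k + 1)) (hd : d ≠ 0) (hr : ¬ ∃ p, role (6 * k + 1) k a b p = d) :
    3 * d = 0 ∧ 2 * d ≠ 0 := by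
  exfalso
  have hsub : Finset.univ.image (role (6 * k + 1) k a b) ⊆ Finset.univ.erase 0 := by
    intro x hx
    obtain ⟨p, -, rfl⟩ := Finset.mem_image.1 hx
    exact Finset.mem_erase.2 ⟨role_ne_zero h p, Finset.mem_univ _⟩
  have heq := Finset.eq_of_subset_of_card_le hsub (by
    rw [card_role h, Finset.card_erase_of_mem (Finset.mem_univ _), Finset.card_univ, ZMod.card]
    omega)
  have : d ∈ Finset.univ.image (role (6 * k + 1) k a b) := by
    rw [heq]
    exact Finset.mem_erase.2 ⟨hd, Finset.mem_univ _⟩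
  obtain ⟨p, -, hp⟩ := Finset.mem_image.1 this
  exact hr ⟨p, hp⟩

theorem cast_ne {n : ℕ} (x y : ℕ) (hx : x < n) (hy : y < n) (h : x ≠ y) :
    (x : ZMod n) ≠ (y : ZMod n) := by
  intro hxy
  rw [ZMod.natCast_eq_natCast_iff'] at hxy
  rw [Nat.mod_eq_of_lt hx, Nat.mod_eq_of_lt hy] at hxy
  exact h hxy

theorem cover_three {k : ℕ} {a b : ℕ → ℕ} (h : IsDT (6 * k + 3) k a b)
    (h4 : ∀ i < k, ∀ ρ : Fin 3, val a b i ρ ≠ 2 * k + 1 ∧ val a b i ρ ≠ 4 * k + 2)
    (d : ZMod (6 * k + 3)) (hd : d ≠ 0) (hr : ¬ ∃ p, role (6 * k + 3) k a b p = d) :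
    3 * d = 0 ∧ 2 * d ≠ 0 := by
  set m : ZMod (6 * k + 3) := ((2 * k + 1 : ℕ) : ZMod (6 * k + 3)) with hm
  set m' : ZMod (6 * k + 3) := ((4 * k + 2 : ℕ) : ZMod (6 * k + 3)) with hm'
  have hmm' : m ≠ m' := cast_ne _ _ (by omega) (by omega) (by omega)
  have hm0 : m ≠ 0 := by
    have := cast_ne (n := 6 * k + 3) (2 * k + 1) 0 (by omega) (by omega) (by omega)
    rwa [Nat.cast_zero] at this
  have hm0' : m' ≠ 0 := by
    have := cast_ne (n := 6 * k + 3) (4 * k + 2) 0 (by omega) (by omega) (by omega)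
    rwa [Nat.cast_zero] at this
  have hz : ((6 * k + 3 : ℕ) : ZMod (6 * k + 3)) = 0 := ZMod.natCast_self _
  have hneg : -m = m' := by
    have : m' + m = 0 := by
      rw [hm, hm', ← Nat.cast_add, ← hz]
      congr 1
      ring
    exact (eq_neg_of_add_eq_zero_left this).symm
  have hneg' : -m' = m := by rw [← hneg, neg_neg]
  have hsub : Finset.univ.image (role (6 * k + 3) k a b) ⊆
      ((Finset.univ.erase 0).erase m).erase m' := by
    intro x hx
    obtain ⟨p, -, rfl⟩ := Finset.mem_image.1 hx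
    obtain ⟨i, ρ, s⟩ := p
    have hl := val_lt h i.isLt ρ
    have hv := h4 i i.isLt ρ
    have n1 : (val a b i ρ : ZMod (6 * k + 3)) ≠ m := cast_ne _ _ hl (by omega) hv.1
    have n2 : (val a b i ρ : ZMod (6 * k + 3)) ≠ m' := cast_ne _ _ hl (by omega) hv.2
    rw [Finset.mem_erase, Finset.mem_erase, Finset.mem_erase]
    refine ⟨?_, ?_, role_ne_zero h _, Finset.mem_univ _⟩
    · cases s
      · simpa [role] using n2
      · intro h5
        simp only [role, if_true] at h5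
        rw [← hneg] at h5
        exact n1 (neg_injective h5)
    · cases s
      · simpa [role] using n1
      · intro h5
        simp only [role, if_true] at h5
        rw [← hneg'] at h5
        exact n2 (neg_injective h5)
  have heq := Finset.eq_of_subset_of_card_le hsub (by
    rw [card_role h, Finset.card_erase_of_mem, Finset.card_erase_of_mem,
      Finset.card_erase_of_mem (Finset.mem_univ _), Finset.card_univ, ZMod.card]
    · omega
    · exact Finset.mem_erase.2 ⟨hm0, Finset.mem_univ _⟩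
    · exact Finset.mem_erase.2 ⟨hmm'.symm, Finset.mem_erase.2 ⟨hm0', Finset.mem_univ _⟩⟩)
  have hd' : d ∉ ((Finset.univ.erase 0).erase m).erase m' := by
    rw [← heq]
    intro h5
    obtain ⟨p, -, hp⟩ := Finset.mem_image.1 h5
    exact hr ⟨p, hp⟩
  have hd2 : d = m ∨ d = m' := by
    by_contra hcon
    push Not at hcon
    exact hd' (Finset.mem_erase.2 ⟨hcon.2, Finset.mem_erase.2 ⟨hcon.1,
      Finset.mem_erase.2 ⟨hd, Finset.mem_univ _⟩⟩⟩)
  have e1 : 2 * m = m' := by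
    rw [hm, hm']
    push_cast
    ring
  have e3 : 3 * m = 0 := by
    have : 3 * m = 2 * m + m := by ring
    rw [this, e1, ← hneg]
    ring
  have e2 : 2 * m' = m := by
    rw [← e1]
    have : 2 * (2 * m) = 3 * m + m := by ring
    rw [this, e3, zero_add]
  rcases hd2 with rfl | rfl
  · exact ⟨e3, by rw [e1]; exact hm0'⟩
  · refine ⟨?_, by rw [e2]; exact hm0⟩
    rw [← e1]
    have : 3 * (2 * m) = 2 * (3 * m) := by ring
    rw [this, e3, mul_zero]

/-! ### `n = 18 * s + 1` -/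

def a1 (s i : ℕ) : ℕ :=
  if i < s then 3 * i + 1 else
  if i < 2 * s then 3 * (i - (s)) + 2 else
  if i + 1 < 3 * s then 3 * (i - (2 * s)) + 3 else
  3 * s

def b1 (s i : ℕ) : ℕ :=
  if i < s then 4 * s + 1 - i else
  if i < 2 * s then 8 * s - (i - (s)) else
  if i + 1 < 3 * s then 6 * s - 1 - 2 * (i - (2 * s)) else
  3 * s + 1

theorem spec1 (s i : ℕ) (hi : i < 3 * s) : ∃ r,
    (r < s ∧ i = r ∧ a1 s i = 3 * r + 1 ∧ b1 s i + r = 4 * s + 1) ∨
    (r < s ∧ i = s + r ∧ a1 s i = 3 * r + 2 ∧ b1 s i + r = 8 * s) ∨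
    (r + 1 < s ∧ i = 2 * s + r ∧ a1 s i = 3 * r + 3 ∧ b1 s i + 2 * r + 1 = 6 * s) ∨
    (r = 0 ∧ i + 1 = 3 * s ∧ a1 s i = 3 * s ∧ b1 s i = 3 * s + 1) := by
  unfold a1 b1
  by_cases h0 : i < s
  · refine ⟨i, Or.inl ?_⟩
    simp only [if_pos h0, true_and, and_true]
    omega
  by_cases h1 : i < 2 * s
  · refine ⟨i - (s), Or.inr (Or.inl ?_)⟩
    simp only [if_neg h0, if_pos h1, true_and, and_true]
    omega
  by_cases h2 : i + 1 < 3 * s
  · refine ⟨i - (2 * s), Or.inr (Or.inr (Or.inl ?_))⟩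
    simp only [if_neg h0, if_neg h1, if_pos h2, true_and, and_true]
    omega
  · refine ⟨0, Or.inr (Or.inr (Or.inr (?_)))⟩
    simp only [if_neg h0, if_neg h1, if_neg h2, true_and, and_true]
    omega

theorem dt1 (s : ℕ) : IsDT (6 * (3 * s) + 1) (3 * s) (a1 s) (b1 s) := by
  apply IsDT.mk'
  · intro i hi
    obtain ⟨r, h⟩ := spec1 s i hi
    generalize a1 s i = x at *
    generalize b1 s i = y at *
    rcases h with h | h | h | h <;> omega
  · intro i hi j hj
    obtain ⟨r, h⟩ := spec1 s i hi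
    obtain ⟨t, h'⟩ := spec1 s j hj
    generalize a1 s i = x at *
    generalize b1 s i = y at *
    generalize a1 s j = x' at *
    generalize b1 s j = y' at *
    rcases h with h | h | h | h <;> rcases h' with h' | h' | h' | h' <;> omega
  · intro i hi j hj
    obtain ⟨r, h⟩ := spec1 s i hi
    obtain ⟨t, h'⟩ := spec1 s j hj
    generalize a1 s i = x at *
    generalize b1 s i = y at *
    generalize a1 s j = x' at *
    generalize b1 s j = y' at *
    rcases h with h | h | h | h <;> rcases h' with h' | h' | h' | h' <;> omega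

/-! ### `n = 18 * s + 7` -/

def a7 (s i : ℕ) : ℕ :=
  if i < s then 3 * i + 1 else
  if i < 2 * s then 3 * (i - (s)) + 2 else
  if i < 3 * s then 3 * (i - (2 * s)) + 3 else
  3 * s + 1

def b7 (s i : ℕ) : ℕ :=
  if i < s then 8 * s + 3 - i else
  if i < 2 * s then 6 * s + 1 - 2 * (i - (s)) else
  if i < 3 * s then 4 * s + 1 - (i - (2 * s)) else
  4 * s + 2

theorem spec7 (s i : ℕ) (hi : i < 3 * s + 1) : ∃ r,
    (r < s ∧ i = r ∧ a7 s i = 3 * r + 1 ∧ b7 s i + r = 8 * s + 3) ∨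
    (r < s ∧ i = s + r ∧ a7 s i = 3 * r + 2 ∧ b7 s i + 2 * r = 6 * s + 1) ∨
    (r < s ∧ i = 2 * s + r ∧ a7 s i = 3 * r + 3 ∧ b7 s i + r = 4 * s + 1) ∨
    (r = 0 ∧ i = 3 * s ∧ a7 s i = 3 * s + 1 ∧ b7 s i = 4 * s + 2) := by
  unfold a7 b7
  by_cases h0 : i < s
  · refine ⟨i, Or.inl ?_⟩
    simp only [if_pos h0, true_and, and_true]
    omega
  by_cases h1 : i < 2 * s
  · refine ⟨i - (s), Or.inr (Or.inl ?_)⟩
    simp only [if_neg h0, if_pos h1, true_and, and_true]
    omega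
  by_cases h2 : i < 3 * s
  · refine ⟨i - (2 * s), Or.inr (Or.inr (Or.inl ?_))⟩
    simp only [if_neg h0, if_neg h1, if_pos h2, true_and, and_true]
    omega
  · refine ⟨0, Or.inr (Or.inr (Or.inr (?_)))⟩
    simp only [if_neg h0, if_neg h1, if_neg h2, true_and, and_true]
    omega

theorem dt7 (s : ℕ) : IsDT (6 * (3 * s + 1) + 1) (3 * s + 1) (a7 s) (b7 s) := by
  apply IsDT.mk'
  · intro i hi
    obtain ⟨r, h⟩ := spec7 s i hi
    generalize a7 s i = x at *
    generalize b7 s i = y at *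
    rcases h with h | h | h | h <;> omega
  · intro i hi j hj
    obtain ⟨r, h⟩ := spec7 s i hi
    obtain ⟨t, h'⟩ := spec7 s j hj
    generalize a7 s i = x at *
    generalize b7 s i = y at *
    generalize a7 s j = x' at *
    generalize b7 s j = y' at *
    rcases h with h | h | h | h <;> rcases h' with h' | h' | h' | h' <;> omega
  · intro i hi j hj
    obtain ⟨r, h⟩ := spec7 s i hi
    obtain ⟨t, h'⟩ := spec7 s j hj
    generalize a7 s i = x at *
    generalize b7 s i = y at *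
    generalize a7 s j = x' at *
    generalize b7 s j = y' at *
    rcases h with h | h | h | h <;> rcases h' with h' | h' | h' | h' <;> omega

/-! ### `n = 18 * s + 13` -/

def a13 (s i : ℕ) : ℕ :=
  if i < s then 3 * i + 2 else
  if i < 2 * s then 3 * (i - (s)) + 3 else
  if i < 3 * s + 1 then 3 * (i - (2 * s)) + 1 else
  3 * s + 2

def b13 (s i : ℕ) : ℕ :=
  if i < s then 6 * s + 3 - 2 * i else
  if i < 2 * s then 8 * s + 5 - (i - (s)) else
  if i < 3 * s + 1 then 4 * s + 3 - (i - (2 * s)) else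
  7 * s + 5

theorem spec13 (s i : ℕ) (hi : i < 3 * s + 2) : ∃ r,
    (r < s ∧ i = r ∧ a13 s i = 3 * r + 2 ∧ b13 s i + 2 * r = 6 * s + 3) ∨
    (r < s ∧ i = s + r ∧ a13 s i = 3 * r + 3 ∧ b13 s i + r = 8 * s + 5) ∨
    (r < s + 1 ∧ i = 2 * s + r ∧ a13 s i = 3 * r + 1 ∧ b13 s i + r = 4 * s + 3) ∨
    (r = 0 ∧ i = 3 * s + 1 ∧ a13 s i = 3 * s + 2 ∧ b13 s i = 7 * s + 5) := by
  unfold a13 b13
  by_cases h0 : i < s
  · refine ⟨i, Or.inl ?_⟩
    simp only [if_pos h0, true_and, and_true]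
    omega
  by_cases h1 : i < 2 * s
  · refine ⟨i - (s), Or.inr (Or.inl ?_)⟩
    simp only [if_neg h0, if_pos h1, true_and, and_true]
    omega
  by_cases h2 : i < 3 * s + 1
  · refine ⟨i - (2 * s), Or.inr (Or.inr (Or.inl ?_))⟩
    simp only [if_neg h0, if_neg h1, if_pos h2, true_and, and_true]
    omega
  · refine ⟨0, Or.inr (Or.inr (Or.inr (?_)))⟩
    simp only [if_neg h0, if_neg h1, if_neg h2, true_and, and_true]
    omega

theorem dt13 (s : ℕ) : IsDT (6 * (3 * s + 2) + 1) (3 * s + 2) (a13 s) (b13 s) := by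
  apply IsDT.mk'
  · intro i hi
    obtain ⟨r, h⟩ := spec13 s i hi
    generalize a13 s i = x at *
    generalize b13 s i = y at *
    rcases h with h | h | h | h <;> omega
  · intro i hi j hj
    obtain ⟨r, h⟩ := spec13 s i hi
    obtain ⟨t, h'⟩ := spec13 s j hj
    generalize a13 s i = x at *
    generalize b13 s i = y at *
    generalize a13 s j = x' at *
    generalize b13 s j = y' at *
    rcases h with h | h | h | h <;> rcases h' with h' | h' | h' | h' <;> omega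
  · intro i hi j hj
    obtain ⟨r, h⟩ := spec13 s i hi
    obtain ⟨t, h'⟩ := spec13 s j hj
    generalize a13 s i = x at *
    generalize b13 s i = y at *
    generalize a13 s j = x' at *
    generalize b13 s j = y' at *
    rcases h with h | h | h | h <;> rcases h' with h' | h' | h' | h' <;> omega

/-! ### `n = 18 * s + 3` -/

def a3 (s i : ℕ) : ℕ :=
  if i < s then 3 * i + 1 else
  if i < 2 * s then 3 * (i - (s)) + 2 else
  3 * (i - (2 * s)) + 3

def b3 (s i : ℕ) : ℕ :=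
  if i < s then 8 * s + 1 - i else
  if i < 2 * s then 4 * s - (i - (s)) else
  6 * s - 1 - 2 * (i - (2 * s))

theorem spec3 (s i : ℕ) (hi : i < 3 * s) : ∃ r,
    (r < s ∧ i = r ∧ a3 s i = 3 * r + 1 ∧ b3 s i + r = 8 * s + 1) ∨
    (r < s ∧ i = s + r ∧ a3 s i = 3 * r + 2 ∧ b3 s i + r = 4 * s) ∨
    (r < s ∧ i = 2 * s + r ∧ a3 s i = 3 * r + 3 ∧ b3 s i + 2 * r + 1 = 6 * s) := by
  unfold a3 b3
  by_cases h0 : i < s
  · refine ⟨i, Or.inl ?_⟩
    simp only [if_pos h0, true_and, and_true]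
    omega
  by_cases h1 : i < 2 * s
  · refine ⟨i - (s), Or.inr (Or.inl ?_)⟩
    simp only [if_neg h0, if_pos h1, true_and, and_true]
    omega
  · refine ⟨i - (2 * s), Or.inr (Or.inr (?_))⟩
    simp only [if_neg h0, if_neg h1, true_and, and_true]
    omega

theorem dt3 (s : ℕ) : IsDT (6 * (3 * s) + 3) (3 * s) (a3 s) (b3 s) := by
  apply IsDT.mk'
  · intro i hi
    obtain ⟨r, h⟩ := spec3 s i hi
    generalize a3 s i = x at *
    generalize b3 s i = y at *
    rcases h with h | h | h <;> omega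
  · intro i hi j hj
    obtain ⟨r, h⟩ := spec3 s i hi
    obtain ⟨t, h'⟩ := spec3 s j hj
    generalize a3 s i = x at *
    generalize b3 s i = y at *
    generalize a3 s j = x' at *
    generalize b3 s j = y' at *
    rcases h with h | h | h <;> rcases h' with h' | h' | h' <;> omega
  · intro i hi j hj
    obtain ⟨r, h⟩ := spec3 s i hi
    obtain ⟨t, h'⟩ := spec3 s j hj
    generalize a3 s i = x at *
    generalize b3 s i = y at *
    generalize a3 s j = x' at *
    generalize b3 s j = y' at *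
    rcases h with h | h | h <;> rcases h' with h' | h' | h' <;> omega

theorem nt3 (s : ℕ) : ∀ i < 3 * s, ∀ ρ : Fin 3,
    val (a3 s) (b3 s) i ρ ≠ 2 * (3 * s) + 1 ∧ val (a3 s) (b3 s) i ρ ≠ 4 * (3 * s) + 2 := by
  intro i hi ρ
  obtain ⟨r, h⟩ := spec3 s i hi
  fin_cases ρ <;> simp only [val, Fin.zero_eta, Fin.mk_one, Fin.reduceFinMk, Matrix.cons_val] <;>
    generalize a3 s i = x at * <;> generalize b3 s i = y at * <;>
    rcases h with h | h | h <;> omega

/-! ### `n = 18 * s + 9` -/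

def a9 (s i : ℕ) : ℕ :=
  if i < s + 1 then 3 * i + 1 else
  if i + 2 < 2 * s then 3 * (i - (s + 1)) + 8 else
  if i + 4 < 3 * s then 3 * (i + 2 - 2 * s) + 6 else
  if i + 4 = 3 * s then 2 else
  if i + 3 = 3 * s then 3 else
  if i + 2 = 3 * s then 5 else
  if i + 1 = 3 * s then 3 * s - 1 else
  3 * s

def b9 (s i : ℕ) : ℕ :=
  if i < s + 1 then 4 * s + 3 - i else
  if i + 2 < 2 * s then 8 * s - (i - (s + 1)) else
  if i + 4 < 3 * s then 6 * s - 1 - 2 * (i + 2 - 2 * s) else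
  if i + 4 = 3 * s then 8 * s + 3 else
  if i + 3 = 3 * s then 8 * s + 1 else
  if i + 2 = 3 * s then 8 * s + 2 else
  if i + 1 = 3 * s then 3 * s + 2 else
  7 * s + 3

theorem spec9 (s i : ℕ) (hs : 4 ≤ s) (hi : i < 3 * s + 1) : ∃ r,
    (r < s + 1 ∧ i = r ∧ a9 s i = 3 * r + 1 ∧ b9 s i + r = 4 * s + 3) ∨
    (r + 3 < s ∧ i = s + 1 + r ∧ a9 s i = 3 * r + 8 ∧ b9 s i + r = 8 * s) ∨
    (r + 2 < s ∧ i + 2 = 2 * s + r ∧ a9 s i = 3 * r + 6 ∧ b9 s i + 2 * r + 1 = 6 * s) ∨
    (r = 0 ∧ i + 4 = 3 * s ∧ a9 s i = 2 ∧ b9 s i = 8 * s + 3) ∨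
    (r = 0 ∧ i + 3 = 3 * s ∧ a9 s i = 3 ∧ b9 s i = 8 * s + 1) ∨
    (r = 0 ∧ i + 2 = 3 * s ∧ a9 s i = 5 ∧ b9 s i = 8 * s + 2) ∨
    (r = 0 ∧ i + 1 = 3 * s ∧ a9 s i + 1 = 3 * s ∧ b9 s i = 3 * s + 2) ∨
    (r = 0 ∧ i = 3 * s ∧ a9 s i = 3 * s ∧ b9 s i = 7 * s + 3) := by
  unfold a9 b9
  by_cases h0 : i < s + 1
  · refine ⟨i, Or.inl ?_⟩
    simp only [if_pos h0, true_and, and_true]
    omega
  by_cases h1 : i + 2 < 2 * s
  · refine ⟨i - (s + 1), Or.inr (Or.inl ?_)⟩
    simp only [if_neg h0, if_pos h1, true_and, and_true]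
    omega
  by_cases h2 : i + 4 < 3 * s
  · refine ⟨i + 2 - 2 * s, Or.inr (Or.inr (Or.inl ?_))⟩
    simp only [if_neg h0, if_neg h1, if_pos h2, true_and, and_true]
    omega
  by_cases h3 : i + 4 = 3 * s
  · refine ⟨0, Or.inr (Or.inr (Or.inr (Or.inl ?_)))⟩
    simp only [if_neg h0, if_neg h1, if_neg h2, if_pos h3, true_and, and_true]
    omega
  by_cases h4 : i + 3 = 3 * s
  · refine ⟨0, Or.inr (Or.inr (Or.inr (Or.inr (Or.inl ?_))))⟩
    simp only [if_neg h0, if_neg h1, if_neg h2, if_neg h3, if_pos h4, true_and, and_true]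
    omega
  by_cases h5 : i + 2 = 3 * s
  · refine ⟨0, Or.inr (Or.inr (Or.inr (Or.inr (Or.inr (Or.inl ?_)))))⟩
    simp only [if_neg h0, if_neg h1, if_neg h2, if_neg h3, if_neg h4, if_pos h5, true_and, and_true]
    omega
  by_cases h6 : i + 1 = 3 * s
  · refine ⟨0, Or.inr (Or.inr (Or.inr (Or.inr (Or.inr (Or.inr (Or.inl ?_))))))⟩
    simp only [if_neg h0, if_neg h1, if_neg h2, if_neg h3, if_neg h4, if_neg h5, if_pos h6, true_and, and_true]
    omega
  · refine ⟨0, Or.inr (Or.inr (Or.inr (Or.inr (Or.inr (Or.inr (Or.inr (?_)))))))⟩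
    simp only [if_neg h0, if_neg h1, if_neg h2, if_neg h3, if_neg h4, if_neg h5, if_neg h6, true_and, and_true]
    omega

theorem dt9 (s : ℕ) (hs : 4 ≤ s) : IsDT (6 * (3 * s + 1) + 3) (3 * s + 1) (a9 s) (b9 s) := by
  apply IsDT.mk'
  · intro i hi
    obtain ⟨r, h⟩ := spec9 s i hs hi
    generalize a9 s i = x at *
    generalize b9 s i = y at *
    rcases h with h | h | h | h | h | h | h | h <;> omega
  · intro i hi j hj
    obtain ⟨r, h⟩ := spec9 s i hs hi
    obtain ⟨t, h'⟩ := spec9 s j hs hj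
    generalize a9 s i = x at *
    generalize b9 s i = y at *
    generalize a9 s j = x' at *
    generalize b9 s j = y' at *
    rcases h with h | h | h | h | h | h | h | h <;> rcases h' with h' | h' | h' | h' | h' | h' | h' | h' <;> omega
  · intro i hi j hj
    obtain ⟨r, h⟩ := spec9 s i hs hi
    obtain ⟨t, h'⟩ := spec9 s j hs hj
    generalize a9 s i = x at *
    generalize b9 s i = y at *
    generalize a9 s j = x' at *
    generalize b9 s j = y' at *
    rcases h with h | h | h | h | h | h | h | h <;> rcases h' with h' | h' | h' | h' | h' | h' | h' | h' <;> omega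

theorem nt9 (s : ℕ) (hs : 4 ≤ s) : ∀ i < 3 * s + 1, ∀ ρ : Fin 3,
    val (a9 s) (b9 s) i ρ ≠ 2 * (3 * s + 1) + 1 ∧ val (a9 s) (b9 s) i ρ ≠ 4 * (3 * s + 1) + 2 := by
  intro i hi ρ
  obtain ⟨r, h⟩ := spec9 s i hs hi
  fin_cases ρ <;> simp only [val, Fin.zero_eta, Fin.mk_one, Fin.reduceFinMk, Matrix.cons_val] <;>
    generalize a9 s i = x at * <;> generalize b9 s i = y at * <;>
    rcases h with h | h | h | h | h | h | h | h <;> omega

/-! ### `n = 18 * s + 15` -/

def a15 (s i : ℕ) : ℕ :=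
  if i < s + 1 then 3 * i + 1 else
  if i < 2 * s + 2 then 3 * (i - (s + 1)) + 2 else
  3 * (i - (2 * s + 2)) + 3

def b15 (s i : ℕ) : ℕ :=
  if i < s + 1 then 4 * s + 3 - i else
  if i < 2 * s + 2 then 8 * s + 6 - (i - (s + 1)) else
  6 * s + 3 - 2 * (i - (2 * s + 2))

theorem spec15 (s i : ℕ) (hi : i < 3 * s + 2) : ∃ r,
    (r < s + 1 ∧ i = r ∧ a15 s i = 3 * r + 1 ∧ b15 s i + r = 4 * s + 3) ∨
    (r < s + 1 ∧ i = s + 1 + r ∧ a15 s i = 3 * r + 2 ∧ b15 s i + r = 8 * s + 6) ∨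
    (r < s ∧ i = 2 * s + 2 + r ∧ a15 s i = 3 * r + 3 ∧ b15 s i + 2 * r = 6 * s + 3) := by
  unfold a15 b15
  by_cases h0 : i < s + 1
  · refine ⟨i, Or.inl ?_⟩
    simp only [if_pos h0, true_and, and_true]
    omega
  by_cases h1 : i < 2 * s + 2
  · refine ⟨i - (s + 1), Or.inr (Or.inl ?_)⟩
    simp only [if_neg h0, if_pos h1, true_and, and_true]
    omega
  · refine ⟨i - (2 * s + 2), Or.inr (Or.inr (?_))⟩
    simp only [if_neg h0, if_neg h1, true_and, and_true]
    omega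

theorem dt15 (s : ℕ) : IsDT (6 * (3 * s + 2) + 3) (3 * s + 2) (a15 s) (b15 s) := by
  apply IsDT.mk'
  · intro i hi
    obtain ⟨r, h⟩ := spec15 s i hi
    generalize a15 s i = x at *
    generalize b15 s i = y at *
    rcases h with h | h | h <;> omega
  · intro i hi j hj
    obtain ⟨r, h⟩ := spec15 s i hi
    obtain ⟨t, h'⟩ := spec15 s j hj
    generalize a15 s i = x at *
    generalize b15 s i = y at *
    generalize a15 s j = x' at *
    generalize b15 s j = y' at *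
    rcases h with h | h | h <;> rcases h' with h' | h' | h' <;> omega
  · intro i hi j hj
    obtain ⟨r, h⟩ := spec15 s i hi
    obtain ⟨t, h'⟩ := spec15 s j hj
    generalize a15 s i = x at *
    generalize b15 s i = y at *
    generalize a15 s j = x' at *
    generalize b15 s j = y' at *
    rcases h with h | h | h <;> rcases h' with h' | h' | h' <;> omega

theorem nt15 (s : ℕ) : ∀ i < 3 * s + 2, ∀ ρ : Fin 3,
    val (a15 s) (b15 s) i ρ ≠ 2 * (3 * s + 2) + 1 ∧ val (a15 s) (b15 s) i ρ ≠ 4 * (3 * s + 2) + 2 := by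
  intro i hi ρ
  obtain ⟨r, h⟩ := spec15 s i hi
  fin_cases ρ <;> simp only [val, Fin.zero_eta, Fin.mk_one, Fin.reduceFinMk, Matrix.cons_val] <;>
    generalize a15 s i = x at * <;> generalize b15 s i = y at * <;>
    rcases h with h | h | h <;> omega

end Pool.Agent.Y347.CSTS
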