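import Mathlib
import Pool.Agent.Y347.CSTS.Pelt

/-!
# The number of cyclic Steiner triple systems
-/

set_option autoImplicit false

namespace Pool.Agent.Y347.CSTS

theorem sq_le_two_pow (k : ℕ) (hk : 4 ≤ k) : k * k ≤ 2 ^ k := by
  induction k, hk using Nat.le_induction with
  | base => norm_num
  | succ k hk ih =>
    rw [pow_succ]
    nlinarith

theorem growth (M k : ℕ) (hk : 11 * M + 4 ≤ k) : M * (6 * k + 5) < 2 ^ k := by
  have h1 := sq_le_two_pow k (by omega)
  have h2 : (11 * M + 4) * k ≤ k * k := Nat.mul_le_mul_right k hk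
  nlinarith [Nat.zero_le M]

/-- the conclusion for one order -/
def Has (n M : ℕ) : Prop :=
  ∃ B : Fin M → Finset (Finset (ZMod n)),
        (∀ i, (∀ b ∈ B i, b.card = 3) ∧
          (∀ x y : ZMod n, x ≠ y → ∃! b : Finset (ZMod n), b ∈ B i ∧ x ∈ b ∧ y ∈ b) ∧
          (∀ b ∈ B i, b.image (fun x => x + 1) ∈ B i)) ∧
        (∀ i j, i ≠ j → ¬ ∃ σ : Equiv.Perm (ZMod n),
          ∀ b : Finset (ZMod n), b ∈ B i ↔ b.map σ.toEmbedding ∈ B j)

theorem Has.pred {n M : ℕ} (h : Has n (M + 1)) : Has n M := by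
  obtain ⟨B, h1, h2⟩ := h
  refine ⟨fun i => B i.castSucc, fun i => h1 i.castSucc, fun i j hij => h2 i.castSucc j.castSucc ?_⟩
  intro h
  exact hij (Fin.castSucc_injective _ h)

theorem has_one {k M : ℕ} {a b : ℕ → ℕ} (h : IsDT (6 * k + 1) k a b)
    (hk : 11 * M + 4 ≤ k) : Has (6 * k + 1) (M + 1) := by
  refine many (by omega) h (cover_one h) M ?_
  have := growth M k hk
  have h2 : M * (6 * k + 1) ≤ M * (6 * k + 5) := Nat.mul_le_mul_left _ (by omega)
  omega

theorem has_three {k M : ℕ} {a b : ℕ → ℕ} (h : IsDT (6 * k + 3) k a b)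
    (h4 : ∀ i < k, ∀ ρ : Fin 3, val a b i ρ ≠ 2 * k + 1 ∧ val a b i ρ ≠ 4 * k + 2)
    (hk : 11 * M + 4 ≤ k) : Has (6 * k + 3) (M + 1) := by
  refine many (by omega) h (cover_three h h4) M ?_
  have := growth M k hk
  have h2 : M * (6 * k + 3) ≤ M * (6 * k + 5) := Nat.mul_le_mul_left _ (by omega)
  omega

theorem main (M n : ℕ) (hn : 6 * (11 * M + 20) ≤ n) (h : n % 6 = 1 ∨ n % 6 = 3) : Has n M := by
  apply Has.pred
  obtain ⟨s, hs⟩ : ∃ s, s = n / 18 := ⟨_, rfl⟩
  have h18 : n % 18 = 1 ∨ n % 18 = 7 ∨ n % 18 = 13 ∨ n % 18 = 3 ∨ n % 18 = 9 ∨ n % 18 = 15 := by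
    omega
  rcases h18 with h18 | h18 | h18 | h18 | h18 | h18
  · have e : n = 6 * (3 * s) + 1 := by omega
    rw [e]
    exact has_one (dt1 s) (by omega)
  · have e : n = 6 * (3 * s + 1) + 1 := by omega
    rw [e]
    exact has_one (dt7 s) (by omega)
  · have e : n = 6 * (3 * s + 2) + 1 := by omega
    rw [e]
    exact has_one (dt13 s) (by omega)
  · have e : n = 6 * (3 * s) + 3 := by omega
    rw [e]
    exact has_three (dt3 s) (nt3 s) (by omega)
  · have e : n = 6 * (3 * s + 1) + 3 := by omega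
    rw [e]
    exact has_three (dt9 s (by omega)) (nt9 s (by omega)) (by omega)
  · have e : n = 6 * (3 * s + 2) + 3 := by omega
    rw [e]
    exact has_three (dt15 s) (nt15 s) (by omega)

end Pool.Agent.Y347.CSTS
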